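import Mathlib

/-!
# Definitions: d-spaces and d-reflections
-/

set_option autoImplicit false

open Topology Set

namespace Pool.Agent.Y449.DRefl

universe u

/-- The specialization order: `x` is below `y` iff `x` is in the closure of `{y}`. -/
def Below {X : Type u} [TopologicalSpace X] (x y : X) : Prop := x ∈ closure {y}

/-- Directed subsets for the specialization order (nonempty, and any two elements have an upper
bound in the set). -/
def IsDirectedSet {X : Type u} [TopologicalSpace X] (D : Set X) : Prop :=
  D.Nonempty ∧ ∀ a ∈ D, ∀ b ∈ D, ∃ c ∈ D, Below a c ∧ Below b c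

/-- Suprema for the specialization order. -/
def IsSup {X : Type u} [TopologicalSpace X] (D : Set X) (s : X) : Prop :=
  (∀ a ∈ D, Below a s) ∧ ∀ t, (∀ a ∈ D, Below a t) → Below s t

/-- `X` is a d-space (monotone convergence space): it is `T0`, every directed subset has a supremum
in the specialization order, and an open set that contains a supremum of a directed set `D`
meets `D`. -/
def IsDSpace (X : Type u) [TopologicalSpace X] : Prop :=
  T0Space X ∧ ∀ D : Set X, IsDirectedSet D →
    ∃ s, IsSup D s ∧ ∀ U : Set X, IsOpen U → s ∈ U → (D ∩ U).Nonempty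

/-- `μ : X → R` is a d-reflection of `X`. -/
def IsDReflection {X R : Type u} [TopologicalSpace X] [TopologicalSpace R] (μ : X → R) : Prop :=
  IsDSpace R ∧ Continuous μ ∧
    ∀ (Y : Type u) [TopologicalSpace Y], IsDSpace Y → ∀ f : X → Y, Continuous f →
      ∃! g : R → Y, Continuous g ∧ g ∘ μ = f

end Pool.Agent.Y449.DRefl
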