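import Mathlib
import Pool.Agent.Y449.DRefl.Defs

/-!
# d-reflections and products

`reflection_of_dense`: an inducing map with d-dense range into a d-space is a d-reflection.
`IsDReflection.inducing`, `IsDReflection.ddense`: the converse. `ddense_pi`: products of d-dense maps
into d-spaces are d-dense. `exists_reflection`: existence of d-reflections.
-/

set_option autoImplicit false

open Topology Set

namespace Pool.Agent.Y449.DRefl

universe u v w

/-! ### the specialization order -/

theorem below_iff {X : Type u} [TopologicalSpace X] {x y : X} :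
    Below x y ↔ ∀ U : Set X, IsOpen U → x ∈ U → y ∈ U := by
  unfold Below
  rw [mem_closure_iff]
  constructor
  · intro h U hU hx
    obtain ⟨z, hz, rfl⟩ := h U hU hx
    exact hz
  · intro h U hU hx
    exact ⟨y, h U hU hx, rfl⟩

theorem below_refl {X : Type u} [TopologicalSpace X] (x : X) : Below x x :=
  below_iff.2 fun _ _ h => h

theorem below_trans {X : Type u} [TopologicalSpace X] {x y z : X} (h : Below x y)
    (h' : Below y z) : Below x z :=
  below_iff.2 fun U hU hx => below_iff.1 h' U hU (below_iff.1 h U hU hx)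

theorem below_antisymm {X : Type u} [TopologicalSpace X] [T0Space X] {x y : X} (h : Below x y)
    (h' : Below y x) : x = y := by
  apply (inseparable_iff_forall_isOpen.2 ?_).eq
  intro U hU
  exact ⟨fun hx => below_iff.1 h U hU hx, fun hy => below_iff.1 h' U hU hy⟩

theorem below_map {X : Type u} {Y : Type v} [TopologicalSpace X] [TopologicalSpace Y] {f : X → Y}
    (hf : Continuous f) {x y : X} (h : Below x y) : Below (f x) (f y) :=
  below_iff.2 fun U hU hx => below_iff.1 h (f ⁻¹' U) (hU.preimage hf) hx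

theorem directed_image {X : Type u} {Y : Type v} [TopologicalSpace X] [TopologicalSpace Y]
    {f : X → Y} (hf : Continuous f) {D : Set X} (hD : IsDirectedSet D) :
    IsDirectedSet (f '' D) := by
  refine ⟨hD.1.image f, ?_⟩
  rintro _ ⟨a, ha, rfl⟩ _ ⟨b, hb, rfl⟩
  obtain ⟨c, hc, h1, h2⟩ := hD.2 a ha b hb
  exact ⟨f c, mem_image_of_mem f hc, below_map hf h1, below_map hf h2⟩

/-- The suprema in a d-space are determined by the open sets. -/
theorem sup_open {X : Type u} [TopologicalSpace X] (hX : IsDSpace X) {D : Set X}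
    (hD : IsDirectedSet D) {s : X} (hs : IsSup D s) {U : Set X} (hU : IsOpen U) :
    s ∈ U ↔ ∃ d ∈ D, d ∈ U := by
  have := hX.1
  obtain ⟨t, ht, h⟩ := hX.2 D hD
  have hst : s = t := below_antisymm (hs.2 t ht.1) (ht.2 s hs.1)
  subst hst
  constructor
  · intro hsU
    obtain ⟨d, hd, hdU⟩ := h U hU hsU
    exact ⟨d, hd, hdU⟩
  · rintro ⟨d, hd, hdU⟩
    exact below_iff.1 (hs.1 d hd) U hU hdU

/-- A point whose open neighbourhoods are the open sets meeting `D` is the supremum. -/
theorem isSup_of_open {X : Type u} [TopologicalSpace X] {D : Set X} {s : X}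
    (h : ∀ U : Set X, IsOpen U → (s ∈ U ↔ ∃ d ∈ D, d ∈ U)) : IsSup D s := by
  refine ⟨fun a ha => below_iff.2 fun U hU haU => (h U hU).2 ⟨a, ha, haU⟩, fun t ht => ?_⟩
  refine below_iff.2 fun U hU hsU => ?_
  obtain ⟨d, hd, hdU⟩ := (h U hU).1 hsU
  exact below_iff.1 (ht d hd) U hU hdU

/-- d-closed subsets: closed under directed suprema. -/
def DClosed {X : Type u} [TopologicalSpace X] (A : Set X) : Prop :=
  ∀ D : Set X, D ⊆ A → IsDirectedSet D → ∀ s, IsSup D s → s ∈ A

/-- a map with d-dense range -/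
def DDense {X : Type u} {Z : Type v} [TopologicalSpace Z] (j : X → Z) : Prop :=
  ∀ A : Set Z, DClosed A → (∀ x, j x ∈ A) → ∀ z, z ∈ A

/-- Continuous maps from a d-space to any `T0` space preserve directed suprema. -/
theorem map_sup {X : Type u} {Y : Type v} [TopologicalSpace X] [TopologicalSpace Y]
    (hX : IsDSpace X) {f : X → Y} (hf : Continuous f) {D : Set X}
    (hD : IsDirectedSet D) {s : X} (hs : IsSup D s) : IsSup (f '' D) (f s) := by
  apply isSup_of_open
  intro U hU
  rw [← mem_preimage, sup_open hX hD hs (hU.preimage hf)]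
  constructor
  · rintro ⟨d, hd, h⟩
    exact ⟨f d, mem_image_of_mem f hd, h⟩
  · rintro ⟨_, ⟨d, hd, rfl⟩, h⟩
    exact ⟨d, hd, h⟩

/-- A d-closed subspace of a d-space is a d-space. -/
theorem dspace_sub {Z : Type u} [TopologicalSpace Z] (hZ : IsDSpace Z) {A : Set Z}
    (hA : DClosed A) : IsDSpace A := by
  have := hZ.1
  refine ⟨inferInstance, fun D hD => ?_⟩
  have hD' : IsDirectedSet (Subtype.val '' D) := directed_image continuous_subtype_val hD
  obtain ⟨s, hs, h⟩ := hZ.2 _ hD'
  have hsA : s ∈ A := hA _ (by rintro _ ⟨a, _, rfl⟩; exact a.2) hD' s hs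
  have key : ∀ U : Set A, IsOpen U → ((⟨s, hsA⟩ : A) ∈ U ↔ ∃ d ∈ D, d ∈ U) := by
    intro U hU
    obtain ⟨V, hV, rfl⟩ := isOpen_induced_iff.1 hU
    rw [mem_preimage, sup_open hZ hD' hs hV]
    constructor
    · rintro ⟨_, ⟨d, hd, rfl⟩, hdV⟩
      exact ⟨d, hd, hdV⟩
    · rintro ⟨d, hd, hdV⟩
      exact ⟨d, mem_image_of_mem _ hd, hdV⟩
  refine ⟨⟨s, hsA⟩, isSup_of_open key, fun U hU hsU => ?_⟩
  obtain ⟨d, hd, hdU⟩ := (key U hU).1 hsU
  exact ⟨d, hd, hdU⟩

theorem prop_open {V : Set Prop} (hV : IsOpen V) (h : False ∈ V) : V = univ := by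
  have hV' : TopologicalSpace.GenerateOpen {{True}} V := hV
  induction hV' with
  | basic s hs =>
    rw [mem_singleton_iff] at hs
    subst hs
    exact absurd h (by simp)
  | univ => rfl
  | inter s t _ _ hs ht => rw [hs ‹_› h.1, ht ‹_› h.2, inter_univ]
  | sUnion S hS ih =>
    obtain ⟨W, hW, hF⟩ := h
    have := ih W hW (hS W hW) hF
    rw [← univ_subset_iff, ← this]
    exact subset_sUnion_of_mem hW

/-- The Sierpinski space is a d-space. -/
theorem dspace_prop : IsDSpace (ULift.{u} Prop) := by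
  refine ⟨inferInstance, fun D hD => ?_⟩
  have hup : ∀ U : Set (ULift.{u} Prop), IsOpen U → ∀ p ∈ U, ULift.up True ∈ U := by
    intro U hU p hp
    obtain ⟨V, hV, rfl⟩ := isOpen_induced_iff.1 hU
    rw [mem_preimage] at hp ⊢
    by_cases h : p.down
    · have h1 : p.down = True := propext ⟨fun _ => trivial, fun _ => h⟩
      rw [h1] at hp
      exact hp
    · have h1 : p.down = False := propext ⟨fun h' => h h', fun h' => h'.elim⟩
      rw [h1] at hp
      rw [prop_open hV hp]
      exact mem_univ _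
  have key : ∀ U : Set (ULift.{u} Prop), IsOpen U →
      ((ULift.up (∃ d ∈ D, d.down) : ULift.{u} Prop) ∈ U ↔ ∃ d ∈ D, d ∈ U) := by
    intro U hU
    by_cases h : ∃ d ∈ D, d.down
    · have h1 : (∃ d ∈ D, d.down) = True := propext ⟨fun _ => trivial, fun _ => h⟩
      rw [h1]
      constructor
      · intro hT
        obtain ⟨d, hd, hd'⟩ := h
        refine ⟨d, hd, ?_⟩
        have h2 : d = ULift.up True := by
          apply ULift.ext
          exact propext ⟨fun _ => trivial, fun _ => hd'⟩
        rw [h2]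
        exact hT
      · rintro ⟨d, _, hdU⟩
        exact hup U hU d hdU
    · have h1 : (∃ d ∈ D, d.down) = False := propext ⟨fun h' => h h', fun h' => h'.elim⟩
      have h2 : ∀ d ∈ D, d = ULift.up False := by
        intro d hd
        apply ULift.ext
        exact propext ⟨fun h' => h ⟨d, hd, h'⟩, fun h' => h'.elim⟩
      rw [h1]
      constructor
      · intro hF
        obtain ⟨d, hd⟩ := hD.1
        refine ⟨d, hd, ?_⟩
        rw [h2 d hd]
        exact hF
      · rintro ⟨d, hd, hdU⟩
        rw [h2 d hd] at hdU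
        exact hdU
  refine ⟨_, isSup_of_open key, fun U hU hsU => ?_⟩
  obtain ⟨d, hd, hdU⟩ := (key U hU).1 hsU
  exact ⟨d, hd, hdU⟩

/-! ### products -/

theorem below_pi {I : Type v} {X : I → Type u} [∀ i, TopologicalSpace (X i)] {x y : ∀ i, X i} :
    Below x y ↔ ∀ i, Below (x i) (y i) := by
  constructor
  · intro h i
    exact below_map (continuous_apply i) h
  · intro h
    rw [below_iff]
    intro U hU hx
    obtain ⟨F, V, hV, hVU⟩ := isOpen_pi_iff.1 hU x hx
    apply hVU
    intro i hi
    exact below_iff.1 (h i) (V i) (hV i hi).1 (hV i hi).2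

theorem directed_finset {X : Type u} [TopologicalSpace X] {D : Set X} (hD : IsDirectedSet D)
    {I : Type v} (F : Finset I) (a : I → X) (ha : ∀ i ∈ F, a i ∈ D) :
    ∃ c ∈ D, ∀ i ∈ F, Below (a i) c := by
  classical
  induction F using Finset.induction_on with
  | empty =>
    obtain ⟨c, hc⟩ := hD.1
    exact ⟨c, hc, fun i hi => absurd hi (Finset.notMem_empty i)⟩
  | insert j F _ ih =>
    obtain ⟨c, hc, h⟩ := ih fun i hi => ha i (Finset.mem_insert_of_mem hi)
    obtain ⟨e, he, h1, h2⟩ := hD.2 c hc (a j) (ha j (Finset.mem_insert_self j F))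
    refine ⟨e, he, fun i hi => ?_⟩
    rcases Finset.mem_insert.1 hi with rfl | hi
    · exact h2
    · exact below_trans (h i hi) h1

theorem dspace_pi {I : Type v} {R : I → Type u} [∀ i, TopologicalSpace (R i)]
    (hR : ∀ i, IsDSpace (R i)) : IsDSpace (∀ i, R i) := by
  have : ∀ i, T0Space (R i) := fun i => (hR i).1
  refine ⟨inferInstance, fun D hD => ?_⟩
  have hDi : ∀ i, IsDirectedSet ((fun x : ∀ i, R i => x i) '' D) :=
    fun i => directed_image (continuous_apply i) hD
  choose s hs using fun i => (hR i).2 _ (hDi i)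
  have key : ∀ U : Set (∀ i, R i), IsOpen U → (s ∈ U ↔ ∃ d ∈ D, d ∈ U) := by
    intro U hU
    constructor
    · intro hsU
      obtain ⟨F, V, hV, hVU⟩ := isOpen_pi_iff.1 hU s hsU
      have h1 : ∀ i, ∃ d : ∀ i, R i, i ∈ F → d ∈ D ∧ d i ∈ V i := by
        intro i
        by_cases hi : i ∈ F
        · obtain ⟨_, ⟨d, hd, rfl⟩, hdV⟩ := (hs i).2 (V i) (hV i hi).1 (hV i hi).2
          exact ⟨d, fun _ => ⟨hd, hdV⟩⟩
        · exact ⟨s, fun h => absurd h hi⟩
      choose a ha using h1
      obtain ⟨c, hc, h2⟩ := directed_finset hD F a fun i hi => (ha i hi).1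
      refine ⟨c, hc, hVU ?_⟩
      intro i hi
      exact below_iff.1 (below_pi.1 (h2 i hi) i) (V i) (hV i hi).1 (ha i hi).2
    · rintro ⟨d, hd, hdU⟩
      have h1 : Below d s := below_pi.2 fun i => (hs i).1.1 _ ⟨d, hd, rfl⟩
      exact below_iff.1 h1 U hU hdU
  refine ⟨s, isSup_of_open key, fun U hU hsU => ?_⟩
  obtain ⟨d, hd, hdU⟩ := (key U hU).1 hsU
  exact ⟨d, hd, hdU⟩

/-! ### a criterion -/

/-- Inducing maps with d-dense range into d-spaces are d-reflections. -/
theorem reflection_of_dense {X Z : Type u} [TopologicalSpace X] [TopologicalSpace Z] {j : X → Z}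
    (hZ : IsDSpace Z) (hj : IsInducing j) (hd : DDense j) : IsDReflection j := by
  refine ⟨hZ, hj.continuous, fun Y _ hY f hf => ?_⟩
  have hT := hY.1
  have huniq : ∀ W₁ W₂ : Set Z, IsOpen W₁ → IsOpen W₂ → j ⁻¹' W₁ = j ⁻¹' W₂ →
      ∀ z, z ∈ W₁ ↔ z ∈ W₂ := by
    intro W₁ W₂ h₁ h₂ he
    apply hd {z | z ∈ W₁ ↔ z ∈ W₂}
    · intro D hDA hD s hs
      show s ∈ W₁ ↔ s ∈ W₂
      rw [sup_open hZ hD hs h₁, sup_open hZ hD hs h₂]
      constructor
      · rintro ⟨d, hd, h⟩
        exact ⟨d, hd, (hDA hd).1 h⟩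
      · rintro ⟨d, hd, h⟩
        exact ⟨d, hd, (hDA hd).2 h⟩
    · intro x
      show x ∈ j ⁻¹' W₁ ↔ x ∈ j ⁻¹' W₂
      rw [he]
  have hex : ∀ V : Set Y, IsOpen V → ∃ W : Set Z, IsOpen W ∧ j ⁻¹' W = f ⁻¹' V := by
    intro V hV
    exact hj.isOpen_iff.1 (hV.preimage hf)
  have hG : ∀ z : Z, ∃ y : Y, ∀ V : Set Y, IsOpen V → ∀ W : Set Z, IsOpen W →
      j ⁻¹' W = f ⁻¹' V → (y ∈ V ↔ z ∈ W) := by
    apply hd {z : Z | ∃ y : Y, ∀ V : Set Y, IsOpen V → ∀ W : Set Z, IsOpen W →
      j ⁻¹' W = f ⁻¹' V → (y ∈ V ↔ z ∈ W)}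
    · intro D hDA hD s hs
      let E : Set Y := {y | ∃ d ∈ D, ∀ V : Set Y, IsOpen V → ∀ W : Set Z, IsOpen W →
        j ⁻¹' W = f ⁻¹' V → (y ∈ V ↔ d ∈ W)}
      have hE : IsDirectedSet E := by
        constructor
        · obtain ⟨d, hd'⟩ := hD.1
          obtain ⟨y, hy⟩ := hDA hd'
          exact ⟨y, d, hd', hy⟩
        · rintro a ⟨d, hd', ha⟩ b ⟨e, he, hb⟩
          obtain ⟨c, hc, h1, h2⟩ := hD.2 d hd' e he
          obtain ⟨y, hy⟩ := hDA hc
          refine ⟨y, ⟨c, hc, hy⟩, below_iff.2 fun V hV hVa => ?_, below_iff.2 fun V hV hVb => ?_⟩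
          · obtain ⟨W, hW, hWV⟩ := hex V hV
            exact (hy V hV W hW hWV).2 (below_iff.1 h1 W hW ((ha V hV W hW hWV).1 hVa))
          · obtain ⟨W, hW, hWV⟩ := hex V hV
            exact (hy V hV W hW hWV).2 (below_iff.1 h2 W hW ((hb V hV W hW hWV).1 hVb))
      obtain ⟨t, ht, -⟩ := hY.2 E hE
      refine ⟨t, fun V hV W hW hWV => ?_⟩
      rw [sup_open hY hE ht hV, sup_open hZ hD hs hW]
      constructor
      · rintro ⟨y, ⟨d, hd', hy⟩, hyV⟩
        exact ⟨d, hd', (hy V hV W hW hWV).1 hyV⟩
      · rintro ⟨d, hd', hdW⟩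
        obtain ⟨y, hy⟩ := hDA hd'
        exact ⟨y, ⟨d, hd', hy⟩, (hy V hV W hW hWV).2 hdW⟩
    · intro x
      refine ⟨f x, fun V hV W hW hWV => ?_⟩
      have h1 : x ∈ j ⁻¹' W ↔ x ∈ f ⁻¹' V := by rw [hWV]
      exact h1.symm
  choose g hg using hG
  have hgV : ∀ V : Set Y, IsOpen V → ∀ W : Set Z, IsOpen W → j ⁻¹' W = f ⁻¹' V →
      g ⁻¹' V = W := by
    intro V hV W hW hWV
    ext z
    exact hg z V hV W hW hWV
  have hgc : Continuous g := by
    rw [continuous_def]
    intro V hV
    obtain ⟨W, hW, hWV⟩ := hex V hV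
    rw [hgV V hV W hW hWV]
    exact hW
  have hgj : g ∘ j = f := by
    funext x
    apply (inseparable_iff_forall_isOpen.2 ?_).eq
    intro V hV
    obtain ⟨W, hW, hWV⟩ := hex V hV
    have h1 : x ∈ j ⁻¹' W ↔ x ∈ f ⁻¹' V := by rw [hWV]
    exact (hg (j x) V hV W hW hWV).trans h1
  refine ⟨g, ⟨hgc, hgj⟩, ?_⟩
  rintro g' ⟨hgc', hgj'⟩
  funext z
  apply hd {z | g' z = g z}
  · intro D hDA hD s hs
    have h1 := map_sup hZ hgc hD hs
    have h2 := map_sup hZ hgc' hD hs
    have h3 : g' '' D = g '' D := image_congr fun d hd => hDA hd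
    rw [h3] at h2
    exact below_antisymm (h2.2 _ h1.1) (h1.2 _ h2.1)
  · intro x
    show (g' ∘ j) x = (g ∘ j) x
    rw [hgj', hgj]

theorem IsDReflection.inducing {X R : Type u} [TopologicalSpace X] [TopologicalSpace R]
    {μ : X → R} (h : IsDReflection μ) : IsInducing μ := by
  rw [isInducing_iff_nhds]
  intro x
  apply le_antisymm
  · exact Filter.map_le_iff_le_comap.1 h.2.1.continuousAt
  · intro s hs
    obtain ⟨U, hUs, hU, hxU⟩ := mem_nhds_iff.1 hs
    have hf : Continuous (fun y : X => (ULift.up (y ∈ U) : ULift.{u} Prop)) :=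
      continuous_uliftUp.comp (isOpen_iff_continuous_mem.1 hU)
    obtain ⟨g, ⟨hg, hgμ⟩, -⟩ := h.2.2 _ dspace_prop _ hf
    refine ⟨{z | (g z).down}, ?_, ?_⟩
    · have h1 : IsOpen {z | (g z).down} := by
        rw [isOpen_iff_continuous_mem]
        exact continuous_uliftDown.comp hg
      refine h1.mem_nhds ?_
      show (g (μ x)).down
      have h2 := congrFun hgμ x
      simp only [Function.comp] at h2
      rw [h2]
      exact hxU
    · intro y hy
      apply hUs
      have h2 := congrFun hgμ y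
      simp only [Function.comp] at h2
      have hy' : (g (μ y)).down := hy
      rw [h2] at hy'
      exact hy'

theorem IsDReflection.ddense {X R : Type u} [TopologicalSpace X] [TopologicalSpace R]
    {μ : X → R} (h : IsDReflection μ) : DDense μ := by
  intro A hA hμ z
  have hAd := dspace_sub h.1 hA
  have hf : Continuous (fun x : X => (⟨μ x, hμ x⟩ : A)) := h.2.1.subtype_mk _
  obtain ⟨g, ⟨hg, hgμ⟩, -⟩ := h.2.2 _ hAd _ hf
  obtain ⟨k, -, hk⟩ := h.2.2 _ h.1 μ h.2.1
  have h1 : (fun z => (g z).1) = k := by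
    apply hk
    refine ⟨continuous_subtype_val.comp hg, ?_⟩
    funext x
    exact congrArg Subtype.val (congrFun hgμ x)
  have h2 : (fun z => z) = k := hk _ ⟨continuous_id, rfl⟩
  have h3 : (g z).1 = z := by
    rw [← h2] at h1
    exact congrFun h1 z
  rw [← h3]
  exact (g z).2

theorem exists_below {X : Type v} {R : Type u} [TopologicalSpace R] {μ : X → R} (h : DDense μ)
    (z : R) : ∃ x, Below (μ x) z := by
  apply h {z | ∃ x, Below (μ x) z}
  · intro D hDA hD s hs
    obtain ⟨d, hd⟩ := hD.1
    obtain ⟨x, hx⟩ := hDA hd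
    exact ⟨x, below_trans hx (hs.1 d hd)⟩
  · intro x
    exact ⟨x, below_refl _⟩

open Classical in
theorem ddense_pi {I : Type v} {X : I → Type w} {R : I → Type u} [∀ i, TopologicalSpace (R i)]
    (hR : ∀ i, IsDSpace (R i)) {μ : ∀ i, X i → R i} (h : ∀ i, DDense (μ i)) :
    DDense (fun (x : ∀ i, X i) (i : I) => μ i (x i)) := by
  intro A hA hμ z
  have hfin : ∀ (F : Finset I) (x : ∀ i, X i),
      (fun i => if i ∈ F then z i else μ i (x i)) ∈ A := by
    intro F
    induction F using Finset.induction_on with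
    | empty =>
      intro x
      have h1 := hμ x
      simpa using h1
    | insert j F hj ih =>
      intro x
      have h1 : ∀ w : R j, Function.update (fun i => if i ∈ F then z i else μ i (x i)) j w ∈ A := by
        apply h j {w : R j | Function.update (fun i => if i ∈ F then z i else μ i (x i)) j w ∈ A}
        · intro D hDA hD s hs
          have hc : Continuous (fun w : R j =>
              Function.update (fun i => if i ∈ F then z i else μ i (x i)) j w) :=
            continuous_const.update j continuous_id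
          refine hA _ ?_ (directed_image hc hD) _ (map_sup (hR j) hc hD hs)
          rintro _ ⟨d, hd, rfl⟩
          exact hDA hd
        · intro y
          have h2 := ih (Function.update x j y)
          have h3 : (fun i => if i ∈ F then z i else μ i (Function.update x j y i)) =
              Function.update (fun i => if i ∈ F then z i else μ i (x i)) j (μ j y) := by
            funext i
            by_cases hij : i = j
            · subst hij
              simp [hj]
            · simp [Function.update_of_ne hij]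
          rw [h3] at h2
          exact h2
      have h4 : (fun i => if i ∈ insert j F then z i else μ i (x i)) =
          Function.update (fun i => if i ∈ F then z i else μ i (x i)) j (z j) := by
        funext i
        by_cases hij : i = j
        · subst hij
          simp
        · simp [hij]
      rw [h4]
      exact h1 _
  choose x hx using fun i => exists_below (h i) (z i)
  let a : Finset I → ∀ i, R i := fun F i => if i ∈ F then z i else μ i (x i)
  have haz : ∀ F, Below (a F) z := by
    intro F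
    rw [below_pi]
    intro i
    by_cases hi : i ∈ F
    · simp only [a, hi, if_true]
      exact below_refl _
    · simp only [a, hi, if_false]
      exact hx i
  have hmono : ∀ F G : Finset I, F ⊆ G → Below (a F) (a G) := by
    intro F G hFG
    rw [below_pi]
    intro i
    by_cases hi : i ∈ F
    · simp only [a, hi, hFG hi, if_true]
      exact below_refl _
    · by_cases hi' : i ∈ G
      · simp only [a, hi, hi', if_true, if_false]
        exact hx i
      · simp only [a, hi, hi', if_false]
        exact below_refl _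
  refine hA (range a) ?_ ⟨range_nonempty a, ?_⟩ z (isSup_of_open ?_)
  · rintro _ ⟨F, rfl⟩
    exact hfin F x
  · rintro _ ⟨F, rfl⟩ _ ⟨G, rfl⟩
    exact ⟨a (F ∪ G), mem_range_self _, hmono _ _ Finset.subset_union_left,
      hmono _ _ Finset.subset_union_right⟩
  · intro U hU
    constructor
    · intro hz
      obtain ⟨F, V, hV, hVU⟩ := isOpen_pi_iff.1 hU z hz
      refine ⟨a F, mem_range_self F, hVU ?_⟩
      intro i hi
      have hi' : i ∈ F := hi
      simp only [a, hi', if_true]
      exact (hV i hi').2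
    · rintro ⟨_, ⟨F, rfl⟩, hF⟩
      exact below_iff.1 (haz F) U hU hF

theorem inducing_pi {I : Type v} {X : I → Type w} {R : I → Type u}
    [∀ i, TopologicalSpace (X i)] [∀ i, TopologicalSpace (R i)] {μ : ∀ i, X i → R i}
    (h : ∀ i, IsInducing (μ i)) : IsInducing (fun (x : ∀ i, X i) (i : I) => μ i (x i)) :=
  IsInducing.piMap h

/-- Every `T0` space has a d-reflection (this is well known; it is included to show that the
hypotheses of the main theorem can always be met). -/
theorem exists_reflection (X : Type u) [TopologicalSpace X] [T0Space X] :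
    ∃ (R : Type u) (_ : TopologicalSpace R) (μ : X → R), IsDReflection μ := by
  let Z : Type u := Set X → ULift.{u} Prop
  let j : X → Z := fun x U => ULift.up (IsOpen U ∧ x ∈ U)
  have hj : IsInducing j := by
    rw [isInducing_iff_nhds]
    intro x
    apply le_antisymm
    · apply Filter.map_le_iff_le_comap.1
      apply Continuous.continuousAt
      refine continuous_pi fun U => continuous_uliftUp.comp ?_
      by_cases hU : IsOpen U
      · have : (fun x => IsOpen U ∧ x ∈ U) = fun x => x ∈ U := by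
          funext y
          exact propext ⟨fun h => h.2, fun h => ⟨hU, h⟩⟩
        rw [this]
        exact isOpen_iff_continuous_mem.1 hU
      · have : (fun x => IsOpen U ∧ x ∈ U) = fun _ => False := by
          funext y
          exact propext ⟨fun h => hU h.1, fun h => h.elim⟩
        rw [this]
        exact continuous_const
    · intro s hs
      obtain ⟨U, hUs, hU, hxU⟩ := mem_nhds_iff.1 hs
      refine ⟨{z | (z U).down}, ?_, ?_⟩
      · have h1 : IsOpen {z : Z | (z U).down} := by
          rw [isOpen_iff_continuous_mem]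
          exact continuous_uliftDown.comp (continuous_apply U)
        exact h1.mem_nhds ⟨hU, hxU⟩
      · intro y hy
        exact hUs hy.2
  have hZ : IsDSpace Z := dspace_pi fun _ => dspace_prop
  let A : Set Z := {z | ∀ B : Set Z, DClosed B → (∀ x, j x ∈ B) → z ∈ B}
  have hA : DClosed A := fun D hDA hD s hs B hB hjB =>
    hB D (fun d hd => hDA hd B hB hjB) hD s hs
  have hjA : ∀ x, j x ∈ A := fun x B _ hjB => hjB x
  have hAd := dspace_sub hZ hA
  refine ⟨A, inferInstance, fun x => ⟨j x, hjA x⟩, reflection_of_dense hAd ?_ ?_⟩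
  · have h1 : IsInducing ((Subtype.val : A → Z) ∘ fun x => (⟨j x, hjA x⟩ : A)) := hj
    exact (IsInducing.subtypeVal.of_comp_iff).1 h1
  · intro B hB hjB z
    have h1 : DClosed (Subtype.val '' B : Set Z) := by
      intro D hDB hD s hs
      have hDA : D ⊆ A := by
        intro d hd
        obtain ⟨b, _, rfl⟩ := hDB hd
        exact b.2
      have hsA : s ∈ A := hA D hDA hD s hs
      have hpre : (Subtype.val '' (Subtype.val ⁻¹' D : Set A) : Set Z) = D := by
        rw [Subtype.image_preimage_coe, inter_eq_right.2 hDA]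
      refine ⟨⟨s, hsA⟩, hB (Subtype.val ⁻¹' D) ?_ ?_ _ ?_, rfl⟩
      · intro d hd
        obtain ⟨b, hb, hbd⟩ := hDB hd
        rw [← Subtype.ext hbd]
        exact hb
      · refine ⟨?_, ?_⟩
        · obtain ⟨d, hd⟩ := hD.1
          exact ⟨⟨d, hDA hd⟩, hd⟩
        · intro a ha b hb
          obtain ⟨c, hc, h1, h2⟩ := hD.2 _ ha _ hb
          have hsub : ∀ p q : A, Below p.1 q.1 → Below p q := by
            intro p q hpq
            rw [below_iff]
            intro U hU hp
            obtain ⟨V, hV, rfl⟩ := isOpen_induced_iff.1 hU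
            exact below_iff.1 hpq V hV hp
          exact ⟨⟨c, hDA hc⟩, hc, hsub _ _ h1, hsub _ _ h2⟩
      · apply isSup_of_open
        intro U hU
        obtain ⟨V, hV, rfl⟩ := isOpen_induced_iff.1 hU
        rw [mem_preimage, sup_open hZ hD hs hV]
        constructor
        · rintro ⟨d, hd, hdV⟩
          exact ⟨⟨d, hDA hd⟩, hd, hdV⟩
        · rintro ⟨d, hd, hdV⟩
          exact ⟨d.1, hd, hdV⟩
    obtain ⟨b, hb, hbz⟩ := z.2 (Subtype.val '' B) h1 fun x => ⟨_, hjB x, rfl⟩
    rw [← Subtype.ext hbz]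
    exact hb

/-- Two d-reflections of the same space are homeomorphic. -/
theorem reflection_unique {X R S : Type u} [TopologicalSpace X] [TopologicalSpace R]
    [TopologicalSpace S] {μ : X → R} {ν : X → S} (hμ : IsDReflection μ) (hν : IsDReflection ν) :
    ∃ e : R ≃ₜ S, ∀ x, e (μ x) = ν x := by
  obtain ⟨f, ⟨hf, hfμ⟩, -⟩ := hμ.2.2 S hν.1 ν hν.2.1
  obtain ⟨g, ⟨hg, hgν⟩, -⟩ := hν.2.2 R hμ.1 μ hμ.2.1
  obtain ⟨k, -, hk⟩ := hμ.2.2 R hμ.1 μ hμ.2.1
  obtain ⟨l, -, hl⟩ := hν.2.2 S hν.1 ν hν.2.1
  have h1 : g ∘ f = id := by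
    rw [hk (g ∘ f) ⟨hg.comp hf, by rw [Function.comp_assoc, hfμ, hgν]⟩, hk id ⟨continuous_id, rfl⟩]
  have h2 : f ∘ g = id := by
    rw [hl (f ∘ g) ⟨hf.comp hg, by rw [Function.comp_assoc, hgν, hfμ]⟩, hl id ⟨continuous_id, rfl⟩]
  exact ⟨{ toFun := f, invFun := g, left_inv := congrFun h1, right_inv := congrFun h2,
           continuous_toFun := hf, continuous_invFun := hg }, congrFun hfμ⟩

end Pool.Agent.Y449.DRefl
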